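import Pool.Agent.H500.ED.Stm

/-!
Project ED (helper500), part C4 (towers), proved by helper401.
-/

set_option autoImplicit false

namespace Pool.Agent.H401.ED.TOW

open NumberField IsDedekindDomain Filter Topology Polynomial
open Pool.Agent.W401.Cheb (GK IsFrob IsInert dens)
open Pool.Agent.H500.ED

section

variable {K : Type} [Field K] [NumberField K]

/-- The image of the field in the algebraic closure of the base field. -/
def FI {H : Subgroup (GK K)} {M : Type} [Field M] [NumberField M] [Algebra K M]
    {ι : GK M →* GK K} {e : AlgebraicClosure M ≃+* AlgebraicClosure K} (h : FX H M ι e) :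
    IntermediateField K (AlgebraicClosure K) where
  carrier := {y | ∃ x : M, e (algebraMap M (AlgebraicClosure M) x) = y}
  mul_mem' := by
    rintro _ _ ⟨x, rfl⟩ ⟨y, rfl⟩
    exact ⟨x * y, by rw [map_mul, map_mul]⟩
  add_mem' := by
    rintro _ _ ⟨x, rfl⟩ ⟨y, rfl⟩
    exact ⟨x + y, by rw [map_add, map_add]⟩
  algebraMap_mem' := fun x => ⟨algebraMap K M x, h.base x⟩
  inv_mem' := by
    rintro _ ⟨x, rfl⟩
    exact ⟨x⁻¹, by rw [map_inv₀, map_inv₀]⟩

lemma mem_FI {H : Subgroup (GK K)} {M : Type} [Field M] [NumberField M] [Algebra K M]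
    {ι : GK M →* GK K} {e : AlgebraicClosure M ≃+* AlgebraicClosure K} (h : FX H M ι e)
    (y : AlgebraicClosure K) : y ∈ FI h ↔ ∃ x : M, e (algebraMap M (AlgebraicClosure M) x) = y :=
  Iff.rfl

lemma fixing {H : Subgroup (GK K)} {M : Type} [Field M] [NumberField M] [Algebra K M]
    {ι : GK M →* GK K} {e : AlgebraicClosure M ≃+* AlgebraicClosure K} (h : FX H M ι e) :
    (FI h).fixingSubgroup = H := by
  ext g
  rw [h.mem, IntermediateField.mem_fixingSubgroup_iff]
  constructor
  · intro hg x
    exact hg _ ⟨x, rfl⟩
  · rintro hg _ ⟨x, rfl⟩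
    exact hg x

/-- elements fixed by the subgroup -/
lemma exists_of_fixed {H : Subgroup (GK K)} {M : Type} [Field M] [NumberField M] [Algebra K M]
    {ι : GK M →* GK K} {e : AlgebraicClosure M ≃+* AlgebraicClosure K} (h : FX H M ι e)
    (y : AlgebraicClosure K) (hy : ∀ g ∈ H, g y = y) :
    ∃ x : M, e (algebraMap M (AlgebraicClosure M) x) = y := by
  have h1 : IntermediateField.fixedField (FI h).fixingSubgroup = FI h :=
    InfiniteGalois.fixedField_fixingSubgroup (FI h)
  have h2 : y ∈ IntermediateField.fixedField (FI h).fixingSubgroup := by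
    rw [IntermediateField.mem_fixedField_iff, fixing h]
    exact hy
  rw [h1] at h2
  exact h2

end

theorem main : S_TOW := by
  intro K _ _ U H L _ _ _ ιL eL M _ _ _ ιM eM hU hH hUH hL hM
  have hex : ∀ x : M, ∃ y : L, eL (algebraMap L (AlgebraicClosure L) y) =
      eM (algebraMap M (AlgebraicClosure M) x) := by
    intro x
    refine exists_of_fixed hL _ fun g hg => ?_
    exact (hM.mem g).1 (hUH hg) x
  have hinj : ∀ y y' : L, eL (algebraMap L (AlgebraicClosure L) y) =
      eL (algebraMap L (AlgebraicClosure L) y') → y = y' := by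
    intro y y' h
    exact (algebraMap L (AlgebraicClosure L)).injective (eL.injective h)
  choose f hf using hex
  let F : M →+* L :=
    { toFun := f
      map_one' := hinj _ _ (by rw [hf, map_one, map_one, map_one, map_one])
      map_mul' := fun x y => hinj _ _ (by
        rw [hf, map_mul, map_mul, map_mul, map_mul, hf, hf])
      map_zero' := hinj _ _ (by rw [hf, map_zero, map_zero, map_zero, map_zero])
      map_add' := fun x y => hinj _ _ (by
        rw [hf, map_add, map_add, map_add, map_add, hf, hf]) }
  have hF : ∀ x, eL (algebraMap L (AlgebraicClosure L) (F x)) =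
      eM (algebraMap M (AlgebraicClosure M) x) := hf
  let e' : AlgebraicClosure L ≃+* AlgebraicClosure M := eL.trans eM.symm
  have he' : ∀ x, eM (e' x) = eL x := fun x => eM.apply_symm_apply _
  have hbase : ∀ x : M, e' (algebraMap L (AlgebraicClosure L) (F x)) =
      algebraMap M (AlgebraicClosure M) x := by
    intro x
    apply eM.injective
    rw [he', hF]
  have hbase' : ∀ x : M, e'.symm (algebraMap M (AlgebraicClosure M) x) =
      algebraMap L (AlgebraicClosure L) (F x) := by
    intro x
    rw [← hbase, RingEquiv.symm_apply_apply]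
  let ι' : GK L →* GK M :=
    { toFun := fun s => AlgEquiv.ofRingEquiv (f := (e'.symm.trans s.toRingEquiv).trans e')
        (fun x => by
          show e' (s (e'.symm (algebraMap M (AlgebraicClosure M) x))) = _
          rw [hbase', s.commutes, hbase])
      map_one' := by
        ext x
        show e' ((1 : GK L) (e'.symm x)) = x
        rw [AlgEquiv.one_apply, RingEquiv.apply_symm_apply]
      map_mul' := fun s t => by
        ext x
        show e' ((s * t) (e'.symm x)) = e' (s (e'.symm (e' (t (e'.symm x)))))
        rw [AlgEquiv.mul_apply, RingEquiv.symm_apply_apply] }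
  have hι' : ∀ (s : GK L) x, ι' s (e' x) = e' (s x) := by
    intro s x
    show e' (s (e'.symm (e' x))) = e' (s x)
    rw [RingEquiv.symm_apply_apply]
  letI : Algebra M L := F.toAlgebra
  refine ⟨F.toAlgebra, ι', fun x => ?_, hF, ?_, fun s => ?_⟩
  · apply hinj
    show eL (algebraMap L (AlgebraicClosure L) (F (algebraMap K M x))) = _
    rw [hF, hM.base, hL.base]
  · refine ⟨hbase, fun g => ?_, hι'⟩
    rw [Subgroup.mem_comap, hL.mem]
    have h1 : ∀ x : L, ιM g (eL (algebraMap L (AlgebraicClosure L) x)) =
        eM (g (e' (algebraMap L (AlgebraicClosure L) x))) := by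
      intro x
      rw [← he', hM.act]
    constructor
    · intro h x
      apply eM.injective
      rw [← h1, h x, he']
    · intro h x
      rw [h1]
      have h2 : g (e' (algebraMap L (AlgebraicClosure L) x)) =
        e' (algebraMap L (AlgebraicClosure L) x) := h x
      rw [h2, he']
  · ext y
    obtain ⟨x, rfl⟩ := eL.surjective y
    rw [hL.act, ← he' x, hM.act, hι', he']

end Pool.Agent.H401.ED.TOW
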